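import Pool.Agent.Helper95.PN.Stmts
import Pool.Agent.Helper33.PM.Com

/-! # PN: the row MTH -/

set_option autoImplicit false

namespace Pool.Agent.Helper95.PW

open MeasureTheory Filter

theorem MTH_scale {g : R3 → ℝ} {K R R' : ℝ} (h : Scale g K R) (hK : 0 ≤ K) (hR' : 0 < R')
    (hle : R' ≤ R) : Scale g K R' :=
  ⟨h.sm, h.cs, h.d1, fun i j y => (h.d2 i j y).trans (div_le_div_of_nonneg_left hK hR' hle),
   fun i j l y => (h.d3 i j l y).trans
     (div_le_div_of_nonneg_left hK (by positivity) (pow_le_pow_left₀ hR'.le hle 2)),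
   fun i j l m y => (h.d4 i j l m y).trans
     (div_le_div_of_nonneg_left hK (by positivity) (pow_le_pow_left₀ hR'.le hle 3))⟩

theorem MTH_nrsq (y : R3) : nr y ^ 2 = y 0 ^ 2 + y 1 ^ 2 + y 2 ^ 2 := by
  unfold nr
  exact Real.sq_sqrt (by positivity)

theorem MTH_geo (y a : R3) (L : ℝ) (hL : 0 < L) (h : nr (y - a) < L / 2) (ha : nr a ≤ L / 2) :
    nr y < L := by
  have h1 : nr y ^ 2 < L ^ 2 := by
    have e1 := MTH_nrsq y
    have e2 := MTH_nrsq (y - a)
    have e3 := MTH_nrsq a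
    have p1 : nr (y - a) ^ 2 < (L / 2) ^ 2 := pow_lt_pow_left₀ h (com_nr_nonneg _) two_ne_zero
    have p2 : nr a ^ 2 ≤ (L / 2) ^ 2 := pow_le_pow_left₀ (com_nr_nonneg _) ha 2
    simp only [Pi.sub_apply] at e2
    rw [e2] at p1
    rw [e3] at p2
    rw [e1]
    nlinarith [sq_nonneg (y 0 - 2 * a 0), sq_nonneg (y 1 - 2 * a 1), sq_nonneg (y 2 - 2 * a 2)]
  exact lt_of_pow_lt_pow_left₀ 2 hL.le h1

theorem MTH_pd (m : Fin 3) (L : ℝ) (hcut : ∀ y, nr y ≤ L → gm m L y = y m) (y : R3)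
    (hy : nr y < L) (i : Fin 3) : pd i (gm m L) y = if i = m then 1 else 0 := by
  have h1 : gm m L =ᶠ[nhds y] fun y => y m := by
    filter_upwards [(isOpen_lt innm_nr_cont continuous_const).mem_nhds hy] with w hw
    exact hcut w (le_of_lt hw)
  unfold pd
  rw [h1.fderiv_eq]
  have h2 : HasFDerivAt (fun y : R3 => y m)
      (ContinuousLinearMap.proj (R := ℝ) (φ := fun _ : Fin 3 => ℝ) m) y :=
    (ContinuousLinearMap.proj (R := ℝ) (φ := fun _ : Fin 3 => ℝ) m).hasFDerivAt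
  rw [h2.fderiv]
  simp [Pi.single_apply, eq_comm]

theorem MTH_ind {n : ℕ} (u : Wf n) (h : sq u ≤ 2) : one (ind Set.univ) u ≤ 2 * n := by
  have e : one (ind Set.univ) u = n * sq u := by
    unfold one sq ind
    rw [Finset.mul_sum]
    refine Finset.sum_congr rfl fun s _ => ?_
    rw [← integral_const_mul]
    refine integral_congr_ae (Eventually.of_forall fun x => ?_)
    simp
  rw [e]
  have := mul_le_mul_of_nonneg_left h (Nat.cast_nonneg n : (0 : ℝ) ≤ n)
  linarith

theorem st_MTH (h1 : ST_MLOC) (h2 : ST_INLJ) (h3 : ST_E0) (h4 : ST_POTB) (h5 : ST_LIMG)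
    (h6 : ST_CUT) (h7 : ST_APXM) (h8 : ST_LMTM) (h9 : ST_QHM) (h10 : ST_INTM) : ST_MTH := by
  intro z d hz hd
  obtain ⟨Ca, hCa, HA⟩ := h1 z d hz hd
  obtain ⟨Cb, hCb, HB⟩ := h2
  obtain ⟨Cp, hCp, HP⟩ := h4 z d hz hd
  obtain ⟨K, hK, H6, _⟩ := h6
  have hK0 : 0 < K := by linarith
  refine ⟨18 * (Cb * K ^ 4) * (Ca * (Cp + 2)), by positivity, ?_⟩
  intro n M X Z E φ G hn hM hNuc hZz hSep hG
  have hZ0 := hNuc.1
  have hE : E ≤ 0 := h3 n M X Z E hn hZ0 hG.low
  obtain ⟨u, hu⟩ := h7 n M X Z E φ G hG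
  obtain ⟨l1, l2, l3⟩ := h8 n M X Z E φ G u hG hu
  obtain ⟨hsm, _, _, ⟨M0, hM0⟩, hres⟩ := hu
  obtain ⟨W, hW⟩ : ∃ W : ℝ, W = n * (M : ℝ) ^ (2 / 3 : ℝ) := ⟨_, rfl⟩
  have hn1 : (1:ℝ) ≤ n := by exact_mod_cast hn
  have hM1 : (1:ℝ) ≤ M := by exact_mod_cast hM
  have hW1 : 1 ≤ W := by
    rw [hW]
    have := Real.one_le_rpow hM1 (by norm_num : (0:ℝ) ≤ 2 / 3)
    nlinarith
  obtain ⟨T, hT⟩ : ∃ T : ℝ, T = kinG G := ⟨_, rfl⟩
  rw [← hT] at l2
  have hT0 : 0 ≤ T := ge_of_tendsto' l2 (fun j => com_kin_nonneg _)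
  rw [← hW, ← hT]
  obtain ⟨C', hC', HA'⟩ := HA n M X Z E (T + 1) hM hSep hZ0 hZz
  have key : ∀ m : Fin 3, sq (fun s x => ∑ k, G k m s x) ^ 2 ≤
      Cb * K ^ 4 * (2 * n * (Ca * (T + (Cp * (T + W) + W) + W))) := by
    intro m
    have hLt : Tendsto (fun L : ℕ => ((L:ℝ) + 1) / 2) atTop atTop :=
      (tendsto_natCast_atTop_atTop.atTop_add tendsto_const_nhds).atTop_div_const (by norm_num)
    have hL0 : ∀ᶠ L : ℕ in atTop, ∀ j, nr (X j) ≤ ((L:ℝ) + 1) / 2 := by
      rw [Filter.eventually_all]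
      intro j
      exact hLt.eventually_ge_atTop _
    have hev : ∀ᶠ L : ℕ in atTop, sq (PG (gm m (L + 1)) φ G) ^ 2 ≤
        Cb * K ^ 4 * (2 * n * ((T + (Cp * (T + W) + W) + Cp * (T + W)) / (((L:ℝ) + 1) / 2) ^ 2 +
          2 * n / (((L:ℝ) + 1) / 2) ^ 4 + Ca * (T + (Cp * (T + W) + W) + W))) := by
      filter_upwards [hL0] with L hL
      have hLp : (0:ℝ) < (L:ℝ) + 1 := by positivity
      obtain ⟨R, hR⟩ : ∃ R : ℝ, R = ((L:ℝ) + 1) / 2 := ⟨_, rfl⟩
      rw [← hR] at hL ⊢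
      have hRp : 0 < R := by rw [hR]; positivity
      obtain ⟨B, hB⟩ : ∃ B : ℝ, B = (T + 1) + (Cp * (T + 1 + W) + W) + |M0| := ⟨_, rfl⟩
      obtain ⟨C'', hC'', HI⟩ := HB n M X Z E (fun m => gm m ((L:ℝ) + 1)) K R B Set.univ hG.low hZ0
        hK (fun m => MTH_scale (H6 m _ hLp).1 hK0.le hRp (by rw [hR]; linarith)) hRp isClosed_univ
        (fun m y hy => absurd (Set.mem_univ y) hy)
        (fun m j y hy i => MTH_pd m _ (H6 m _ hLp).2.1 y
          (MTH_geo y (X j) _ hLp (by rw [← hR]; exact hy) (by rw [← hR]; exact hL j)) i)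
      have hevj : ∀ᶠ j in atTop, sq (fun s => Pg (gm m ((L:ℝ) + 1)) (u j s)) ^ 2 ≤
          Cb * K ^ 4 * (2 * n * ((kin (u j) + (Cp * (kin (u j) + W) + W) +
            Cp * (kin (u j) + W)) / R ^ 2 + 2 * n / R ^ 4 +
            (Ca * (kin (u j) + (Cp * (kin (u j) + W) + W) + W) +
              C' * Real.sqrt (resM X Z E (u j))))) + C'' * Real.sqrt (resM X Z E (u j)) := by
        have e1 : ∀ᶠ j in atTop, sq (u j) ≤ 2 :=
          l1.eventually_le_const (by norm_num : (1:ℝ) < 2)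
        have e2 : ∀ᶠ j in atTop, resM X Z E (u j) ≤ 1 / 2 :=
          hres.eventually_le_const (by norm_num : (0:ℝ) < 1 / 2)
        have e3 : ∀ᶠ j in atTop, kin (u j) ≤ T + 1 :=
          l2.eventually_le_const (by linarith)
        filter_upwards [e1, e2, e3] with j hj1 hj2 hj3
        have hQ := innm_Q_le_one h9 h10 X Z E (u j) (hsm j).1 hE hj1 hj2
        have p1 := com_kin_nonneg (u j)
        have p2 := com_pair_nonneg (u j)
        have p3 : 0 ≤ one (pot X Z) (u j) :=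
          com_one_nonneg _ (innm_pot_nonneg X Z hZ0) _
        have q1 := HP n M X Z (u j) hM hSep hZ0 hZz (hsm j).1 hj1
        rw [← hW] at q1
        have q2 : pair (u j) ≤ Cp * (kin (u j) + W) + W := by
          unfold QM at hQ
          linarith
        have q3 := HA' (u j) (hsm j).1 hj1 hj3
        obtain ⟨B1, hB1⟩ : ∃ B1 : ℝ, B1 = Ca * (kin (u j) + pair (u j) + W) +
            C' * Real.sqrt (resM X Z E (u j)) := ⟨_, rfl⟩
        simp only [← hW, ← hB1] at q3
        have hs0 := Real.sqrt_nonneg (resM X Z E (u j))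
        have hB1n : 0 ≤ B1 := by rw [hB1]; positivity
        have hcp : Cp * (kin (u j) + W) ≤ Cp * (T + 1 + W) :=
          mul_le_mul_of_nonneg_left (by linarith) hCp.le
        have hcp0 : 0 ≤ Cp * (kin (u j) + W) := by positivity
        have hM2 := le_abs_self M0
        have hM3 := abs_nonneg M0
        have hM4 := hM0 j
        have hb := HI (u j) (hsm j).1 (hsm j).2 hj1 (by linarith) (by linarith) (by linarith)
          (by linarith) (by linarith) B1 d hB1n hd q3 m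
        refine hb.trans (add_le_add ?_ le_rfl)
        have n1 := MTH_ind (u j) hj1
        have n0 : 0 ≤ one (ind Set.univ) (u j) := com_one_nonneg _ (innm_ind_nonneg _) _
        apply mul_le_mul_of_nonneg_left _ (by positivity)
        have b1 : (kin (u j) + pair (u j) + one (pot X Z) (u j)) / R ^ 2 ≤
            (kin (u j) + (Cp * (kin (u j) + W) + W) + Cp * (kin (u j) + W)) / R ^ 2 :=
          div_le_div_of_nonneg_right (by linarith) (by positivity)
        have b2 : one (ind Set.univ) (u j) / R ^ 4 ≤ 2 * n / R ^ 4 :=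
          div_le_div_of_nonneg_right n1 (by positivity)
        have b3 : B1 ≤ Ca * (kin (u j) + (Cp * (kin (u j) + W) + W) + W) +
            C' * Real.sqrt (resM X Z E (u j)) := by
          rw [hB1]
          have := mul_le_mul_of_nonneg_left (show kin (u j) + pair (u j) + W ≤
            kin (u j) + (Cp * (kin (u j) + W) + W) + W by linarith) hCa.le
          linarith
        have b0 : 0 ≤ (kin (u j) + pair (u j) + one (pot X Z) (u j)) / R ^ 2 +
            one (ind Set.univ) (u j) / R ^ 4 + B1 := by positivity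
        exact mul_le_mul n1 (by linarith) b0 (by positivity)
      have lim1 : Tendsto (fun j => sq (fun s => Pg (gm m ((L:ℝ) + 1)) (u j s)) ^ 2) atTop
          (nhds (sq (PG (gm m ((L:ℝ) + 1)) φ G) ^ 2)) :=
        (l3 _ (H6 m _ hLp).1.sm (H6 m _ hLp).1.cs).pow 2
      have lr : Tendsto (fun j => Real.sqrt (resM X Z E (u j))) atTop (nhds 0) := by
        have := hres.sqrt
        rwa [Real.sqrt_zero] at this
      have lim2 : Tendsto (fun j => Cb * K ^ 4 * (2 * n * ((kin (u j) +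
            (Cp * (kin (u j) + W) + W) + Cp * (kin (u j) + W)) / R ^ 2 + 2 * n / R ^ 4 +
            (Ca * (kin (u j) + (Cp * (kin (u j) + W) + W) + W) +
              C' * Real.sqrt (resM X Z E (u j))))) + C'' * Real.sqrt (resM X Z E (u j))) atTop
          (nhds (Cb * K ^ 4 * (2 * n * ((T + (Cp * (T + W) + W) + Cp * (T + W)) / R ^ 2 +
            2 * n / R ^ 4 + (Ca * (T + (Cp * (T + W) + W) + W) + C' * 0))) + C'' * 0)) := by
        have t1 := ((l2.add_const W).const_mul Cp)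
        have t2 := (l2.add (t1.add_const W))
        have t3 := ((t2.add t1).div_const (R ^ 2)).add_const (2 * (n:ℝ) / R ^ 4)
        have t4 := ((t2.add_const W).const_mul Ca).add (lr.const_mul C')
        exact (((t3.add t4).const_mul (2 * (n:ℝ))).const_mul (Cb * K ^ 4)).add
          (lr.const_mul C'')
      have hfin := le_of_tendsto_of_tendsto lim1 lim2 hevj
      rw [mul_zero, mul_zero, add_zero, add_zero] at hfin
      exact hfin
    have lim1 := (h5 n φ G m hG.lp hG.lpG).pow 2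
    have t0 : Tendsto (fun L : ℕ => (((L:ℝ) + 1) / 2) ^ 2) atTop atTop :=
      (tendsto_pow_atTop two_ne_zero).comp hLt
    have t1 : Tendsto (fun L : ℕ => (((L:ℝ) + 1) / 2) ^ 4) atTop atTop :=
      (tendsto_pow_atTop four_ne_zero).comp hLt
    have t2 := (t0.const_div_atTop (T + (Cp * (T + W) + W) + Cp * (T + W))).add
      (t1.const_div_atTop (2 * (n:ℝ)))
    have t3 := ((t2.add_const (Ca * (T + (Cp * (T + W) + W) + W))).const_mul
      (2 * (n:ℝ))).const_mul (Cb * K ^ 4)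
    have hfin := le_of_tendsto_of_tendsto lim1 t3 hev
    rw [add_zero, zero_add] at hfin
    exact hfin
  have hsum : mom G ^ 2 ≤ 3 * ∑ m : Fin 3, sq (fun s x => ∑ k, G k m s x) ^ 2 := by
    unfold mom
    have := sq_sum_le_card_mul_sum_sq (s := (Finset.univ : Finset (Fin 3)))
      (f := fun m : Fin 3 => sq (fun s x => ∑ k, G k m s x))
    simpa using this
  have hsum2 : ∑ m : Fin 3, sq (fun s x => ∑ k, G k m s x) ^ 2 ≤
      3 * (Cb * K ^ 4 * (2 * n * (Ca * (T + (Cp * (T + W) + W) + W)))) := by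
    have := Finset.sum_le_sum (s := (Finset.univ : Finset (Fin 3))) fun m _ => key m
    simpa using this
  have hlast : T + (Cp * (T + W) + W) + W ≤ (Cp + 2) * (T + W) := by nlinarith
  calc mom G ^ 2 ≤ 3 * (3 * (Cb * K ^ 4 * (2 * n * (Ca * (T + (Cp * (T + W) + W) + W))))) :=
        hsum.trans (by linarith)
    _ ≤ 3 * (3 * (Cb * K ^ 4 * (2 * n * (Ca * ((Cp + 2) * (T + W)))))) := by gcongr
    _ = 18 * (Cb * K ^ 4) * (Ca * (Cp + 2)) * n * (T + W) := by ring

end Pool.Agent.Helper95.PW
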